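import Pool.Agent.J4H73.BV.Large

set_option autoImplicit false

/-! The choice of the removed primes for a general family of character sums, with the level `X ^ 0.497`
(after `Pool.Agent.H378R2.LSBV7`, helper378). -/

open Finset Filter Topology

namespace Pool.Agent.J4H73.BV

open Pool.Agent.Helper112 Pool.Agent.H398R2.BV
open Pool.Agent.H378R2 Pool.Agent.H378R2.LSBV

theorem primorial_yy_le' (X : ℝ) (hX : 1 ≤ X) : (primorial (yy X) : ℝ) ≤ X ^ (7 / 5000 : ℝ) := by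
  have hX0 : 0 < X := by linarith
  have hL : 0 ≤ Real.log X := Real.log_nonneg hX
  have h1 : (primorial (yy X) : ℝ) ≤ (4:ℝ) ^ (yy X) := by
    exact_mod_cast primorial_le_four_pow (yy X)
  refine h1.trans ?_
  have h2 : (yy X : ℝ) ≤ Real.log X / 1000 := Nat.floor_le (by positivity)
  have h4 : Real.log 4 ≤ 1.4 := by
    have : (4:ℝ) = 2 ^ 2 := by norm_num
    rw [this, Real.log_pow]
    have := Real.log_two_lt_d9
    push_cast
    linarith
  have h5 : 0 ≤ Real.log 4 := Real.log_nonneg (by norm_num)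
  rw [Real.rpow_def_of_pos hX0]
  calc (4:ℝ) ^ (yy X) = Real.exp (Real.log 4 * yy X) := by
        rw [Real.exp_mul, Real.exp_log (by norm_num), Real.rpow_natCast]
    _ ≤ Real.exp (Real.log X * (7 / 5000)) := by
        apply Real.exp_le_exp.mpr
        calc Real.log 4 * yy X ≤ 1.4 * (Real.log X / 1000) :=
              mul_le_mul h4 h2 (by positivity) (by norm_num)
          _ = _ := by ring

theorem wt_le_eps (A : ℕ) (ε : ℝ) (hε : 0 < ε) : ∃ C : ℝ, 0 < C ∧ ∀ b : ℕ, 1 ≤ b →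
    wt A b ≤ C * (b : ℝ) ^ ε / b := by
  obtain ⟨C, hC, hd⟩ := divisor_bound (ε / (A + 1)) (by positivity)
  refine ⟨C ^ (A + 1), by positivity, fun b hb => ?_⟩
  have hb0 : (0:ℝ) < b := by exact_mod_cast hb
  have h1 := one_div_totient_le b hb
  have h2 : (2:ℝ) ^ b.primeFactors.card ≤ b.divisors.card := by
    exact_mod_cast two_pow_omega_le b (by omega)
  have h3 : wt A b ≤ (b.divisors.card : ℝ) ^ (A + 1) / b := by
    unfold wt
    calc (b.divisors.card : ℝ) ^ A / (Nat.totient b : ℝ) =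
        (b.divisors.card : ℝ) ^ A * (1 / (Nat.totient b : ℝ)) := by ring
      _ ≤ (b.divisors.card : ℝ) ^ A * (2 ^ b.primeFactors.card / b) :=
          mul_le_mul_of_nonneg_left h1 (by positivity)
      _ ≤ (b.divisors.card : ℝ) ^ A * (b.divisors.card / b) := by gcongr
      _ = _ := by rw [pow_succ]; ring
  refine h3.trans ?_
  have h4 : (b.divisors.card : ℝ) ^ (A + 1) ≤ C ^ (A + 1) * (b : ℝ) ^ ε := by
    calc (b.divisors.card : ℝ) ^ (A + 1) ≤ (C * (b:ℝ) ^ (ε / (A + 1) : ℝ)) ^ (A + 1) :=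
          pow_le_pow_left₀ (by positivity) (hd b hb) _
      _ = C ^ (A + 1) * ((b:ℝ) ^ (ε / (A + 1) : ℝ)) ^ (A + 1) := by rw [mul_pow]
      _ = _ := by
          congr 1
          rw [← Real.rpow_natCast, ← Real.rpow_mul hb0.le]
          congr 1
          push_cast
          field_simp
  exact div_le_div_of_nonneg_right h4 hb0.le

theorem sum_pairsA_gen (T : ℕ → ℝ) (hT : ∀ f, 0 ≤ T f) (X : ℝ) (hX : 0 ≤ X) (ps R D Ω Z : ℕ)
    (hps : GoodP Z ps) (P S : Finset ℕ) (l : ℝ)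
    (hsize : ∀ p ∈ pairs X ps R S, p.2 ≤ D → (P ∩ p.1.primeFactors).card < Ω →
      ((p.1 * p.2 : ℕ) : ℝ) ≤ Real.exp (l ^ 6))
    (hsc : ∀ f : ℕ, Squarefree f → 1 < f → (f : ℝ) ≤ Real.exp (l ^ 6) → f.Coprime ps →
        T f ≤ X * Real.exp (2 * l ^ 6 - l ^ 7)) :
    ∑ p ∈ (pairs X ps R S).filter (fun p => p.2 ≤ D ∧ (P ∩ p.1.primeFactors).card < Ω),
      T (p.1 * p.2) ≤ X * Real.exp (3 * l ^ 6 - l ^ 7) := by
  set G := (Icc 2 ⌊Real.exp (l ^ 6)⌋₊).filter (fun f => Squarefree f ∧ f.Coprime ps) with hG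
  have h1 : ∑ p ∈ (pairs X ps R S).filter (fun p => p.2 ≤ D ∧ (P ∩ p.1.primeFactors).card < Ω),
      T (p.1 * p.2) ≤ ∑ f ∈ G, T f := by
    apply pair_inj T hT (WW X S ps) ps R G
    · intro p hp
      rw [mem_filter] at hp
      unfold pairs at hp
      rw [mem_filter] at hp
      exact hp.1.1
    · intro p hp
      rw [mem_filter] at hp
      have hs := hsize p hp.1 hp.2.1 hp.2.2
      unfold pairs at hp
      rw [mem_filter, mem_product, Nat.mem_divisors, mem_QQ] at hp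
      obtain ⟨⟨⟨⟨ha, _⟩, ⟨hb1, hb2⟩, hb3, hb4⟩, h5⟩, _⟩ := hp
      have ha0 : 0 < p.1 := Nat.pos_of_dvd_of_pos ha (WW_pos X S ps)
      have h6 : 0 < p.1 * p.2 := by positivity
      rw [hG, mem_filter, mem_Icc]
      refine ⟨⟨by omega, Nat.le_floor hs⟩, ?_, ?_⟩
      · have hc : p.1.Coprime p.2 := by
          have : p.2.Coprime (WW X S ps) := Nat.Coprime.coprime_mul_right_right hb4
          exact (this.coprime_dvd_right ha).symm
        rw [Nat.squarefree_mul hc]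
        exact ⟨(WW_squarefree X S ps).squarefree_of_dvd ha, hb3⟩
      · apply Nat.Coprime.mul_left
        · exact (WW_coprime_ps X S ps Z hps).coprime_dvd_left ha
        · exact Nat.Coprime.coprime_mul_left_right hb4
  refine h1.trans ?_
  have h2 : ∀ f ∈ G, T f ≤ X * Real.exp (2 * l ^ 6 - l ^ 7) := by
    intro f hf
    rw [hG, mem_filter, mem_Icc] at hf
    obtain ⟨⟨hf1, hf2⟩, hf3, hf4⟩ := hf
    have hfe : (f:ℝ) ≤ Real.exp (l ^ 6) := (Nat.le_floor_iff (by positivity)).mp hf2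
    exact hsc f hf3 (by omega) hfe hf4
  refine (sum_le_sum h2).trans ?_
  rw [sum_const, nsmul_eq_mul]
  have h3 : (G.card : ℝ) ≤ Real.exp (l ^ 6) := by
    have : G.card ≤ ⌊Real.exp (l ^ 6)⌋₊ := by
      refine (card_filter_le _ _).trans ?_
      rw [Nat.card_Icc]
      omega
    calc (G.card : ℝ) ≤ ⌊Real.exp (l ^ 6)⌋₊ := by exact_mod_cast this
      _ ≤ _ := Nat.floor_le (by positivity)
  calc (G.card : ℝ) * (X * Real.exp (2 * l ^ 6 - l ^ 7)) ≤
      Real.exp (l ^ 6) * (X * Real.exp (2 * l ^ 6 - l ^ 7)) :=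
        mul_le_mul_of_nonneg_right h3 (by positivity)
    _ = X * (Real.exp (l ^ 6) * Real.exp (2 * l ^ 6 - l ^ 7)) := by ring
    _ = _ := by
        rw [← Real.exp_add]
        congr 2
        ring

/-- the main sum over pairs for a good set `S` -/
theorem sum_pairs_gen (T : ℕ → ℝ) (hT : ∀ f, 0 ≤ T f) (A : ℕ) (X C5 M L : ℝ) (hC5 : 0 < C5)
    (hwt : ∀ b : ℕ, 1 ≤ b → wt A b ≤ C5 / Real.sqrt b) (ps R D Ω k F : ℕ) (P S : Finset ℕ)
    (hL : 1 ≤ L) (hM : 0 ≤ M) (hD : ∀ b : ℕ, D < b → L ^ (2 * k) ≤ b)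
    (hF : primorial (yy X) * R ≤ F)
    (hall : ∑ f ∈ Icc 2 F, T f ≤ M * L ^ k)
    (hA : ∑ p ∈ (pairs X ps R S).filter (fun p => p.2 ≤ D ∧ (P ∩ p.1.primeFactors).card < Ω),
      T (p.1 * p.2) ≤ M)
    (hB : ∑ p ∈ pairB X ps R D Ω P S, T (p.1 * p.2) ≤ 3 * M) :
    ∑ p ∈ pairs X ps R S, wt A p.2 * T (p.1 * p.2) ≤ 5 * C5 * M := by
  have hmem : ∀ p ∈ pairs X ps R S, 1 ≤ p.2 := by
    intro p hp
    unfold pairs at hp
    rw [mem_filter, mem_product, mem_QQ] at hp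
    exact hp.1.2.1.1
  have hsmall : ∀ p ∈ pairs X ps R S, wt A p.2 ≤ C5 := by
    intro p hp
    have h1 := hmem p hp
    refine (hwt p.2 h1).trans ?_
    apply div_le_self hC5.le
    rw [Real.one_le_sqrt]
    exact_mod_cast h1
  rw [← sum_filter_add_sum_filter_not (pairs X ps R S) (fun p => p.2 ≤ D)]
  have hC : ∑ p ∈ (pairs X ps R S).filter (fun p => ¬ p.2 ≤ D), wt A p.2 * T (p.1 * p.2) ≤
      C5 * M := by
    have h1 : ∀ p ∈ (pairs X ps R S).filter (fun p => ¬ p.2 ≤ D),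
        wt A p.2 * T (p.1 * p.2) ≤ (C5 / L ^ k) * T (p.1 * p.2) := by
      intro p hp
      rw [mem_filter] at hp
      apply mul_le_mul_of_nonneg_right _ (hT _)
      refine (hwt p.2 (hmem p hp.1)).trans ?_
      apply div_le_div_of_nonneg_left hC5.le (by positivity)
      apply Real.le_sqrt_of_sq_le
      rw [← pow_mul, mul_comm]
      exact hD p.2 (by omega)
    refine (sum_le_sum h1).trans ?_
    rw [← mul_sum]
    have h2 : ∑ p ∈ (pairs X ps R S).filter (fun p => ¬ p.2 ≤ D), T (p.1 * p.2) ≤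
        ∑ f ∈ Icc 2 F, T f := by
      apply pair_inj T hT (WW X S ps) ps R
      · intro p hp
        rw [mem_filter] at hp
        unfold pairs at hp
        rw [mem_filter] at hp
        exact hp.1.1
      · intro p hp
        rw [mem_filter] at hp
        unfold pairs at hp
        rw [mem_filter, mem_product, Nat.mem_divisors, mem_QQ] at hp
        obtain ⟨⟨⟨⟨ha, _⟩, ⟨hb1, hb2⟩, hb3, hb4⟩, h5⟩, _⟩ := hp
        have ha0 : 0 < p.1 := Nat.pos_of_dvd_of_pos ha (WW_pos X S ps)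
        have h6 : 0 < p.1 * p.2 := by positivity
        rw [mem_Icc]
        refine ⟨by omega, le_trans ?_ hF⟩
        apply Nat.mul_le_mul _ hb2
        exact Nat.le_of_dvd (primorial_pos _) (ha.trans (WW_dvd_primorial X S ps))
    calc (C5 / L ^ k) * ∑ p ∈ (pairs X ps R S).filter (fun p => ¬ p.2 ≤ D), T (p.1 * p.2) ≤
        (C5 / L ^ k) * (M * L ^ k) :=
          mul_le_mul_of_nonneg_left (h2.trans hall) (by positivity)
      _ = C5 * M := by
          have : L ^ k ≠ 0 := by positivity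
          field_simp
  have hAB : ∑ p ∈ (pairs X ps R S).filter (fun p => p.2 ≤ D), wt A p.2 * T (p.1 * p.2) ≤
      C5 * (M + 3 * M) := by
    calc _ ≤ ∑ p ∈ (pairs X ps R S).filter (fun p => p.2 ≤ D), C5 * T (p.1 * p.2) := by
          apply sum_le_sum
          intro p hp
          rw [mem_filter] at hp
          exact mul_le_mul_of_nonneg_right (hsmall p hp.1) (hT _)
      _ = C5 * ∑ p ∈ (pairs X ps R S).filter (fun p => p.2 ≤ D), T (p.1 * p.2) := by
          rw [mul_sum]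
      _ ≤ _ := by
          apply mul_le_mul_of_nonneg_left _ hC5.le
          rw [← sum_filter_add_sum_filter_not _
            (fun p : ℕ × ℕ => (P ∩ p.1.primeFactors).card < Ω), filter_filter, filter_filter]
          apply add_le_add hA
          refine le_trans (le_of_eq ?_) hB
          apply sum_congr _ (fun _ _ => rfl)
          unfold pairs pairB
          rw [filter_filter]
          ext p
          rw [mem_filter, mem_filter]
          constructor
          · rintro ⟨h1, h2, h3, h4⟩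
            exact ⟨h1, h2, h3, by omega⟩
          · rintro ⟨h1, h2, h3, h4⟩
            exact ⟨h1, h2, h3, by omega⟩
  linarith

theorem poly3 (l M : ℝ) (hM : 0 ≤ M) (hl : M + 10 ≤ l) : 3 * l ^ 6 + M * l ≤ l ^ 7 := by
  have h1 : 1 ≤ l := by linarith
  have h2 : l ≤ l ^ 6 := le_self_pow₀ h1 (by norm_num)
  have h3 : l ^ 7 = l * l ^ 6 := by ring
  have h4 : (M + 10) * l ^ 6 ≤ l * l ^ 6 := mul_le_mul_of_nonneg_right hl (by positivity)
  have h5 : M * l ≤ M * l ^ 6 := mul_le_mul_of_nonneg_left h2 hM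
  have h6 : 0 ≤ l ^ 6 := by positivity
  linarith

/-- **Choice of the removed primes.** -/
theorem good_set (A Z N : ℕ) (T : ℝ → ℕ → ℝ) (hT : ∀ X f, 0 ≤ T X f) (B0 : ℕ) (C0 : ℝ)
    (h1 : ∀ᶠ X : ℝ in atTop, ∑ f ∈ Icc 2 ⌊X ^ (1 / 50 : ℝ)⌋₊, T X f ≤ C0 * X * (Real.log X) ^ B0)
    (h2 : ∀ Z' : ℕ, ∀ᶠ X : ℝ in atTop, ∃ fs : ℕ, (fs = 0 ∨ Z' < fs) ∧ ∀ f : ℕ, Squarefree f →
      1 < f → (f : ℝ) ≤ Real.exp ((Real.log (Real.log X)) ^ 6) → f ≠ fs →
        T X f ≤ X * Real.exp (2 * (Real.log (Real.log X)) ^ 6 - (Real.log (Real.log X)) ^ 7))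
    (h3 : ∀ᶠ X : ℝ in atTop, ∀ F0 F1 : ℕ, 2 ≤ F0 → X ^ (1 / 100 : ℝ) ≤ 2 * F0 →
      (F1 : ℝ) ≤ X ^ (623 / 1250 : ℝ) →
      ∑ f ∈ Icc F0 F1, (1 / (f : ℝ)) * T X f ≤ X ^ (19971 / 20000 : ℝ)) :
    ∀ᶠ X : ℝ in atTop, ∃ (ps : ℕ) (S : Finset ℕ), GoodP Z ps ∧ GoodS X S ∧
      ∑ p ∈ pairs X ps ⌊X ^ (497 / 1000 : ℝ)⌋₊ S, wt A p.2 * T X (p.1 * p.2) ≤
        X / (Real.log X) ^ N := by
  classical
  set N' := N + 2 with hN'
  set k := N' + B0 with hk
  set C1 := max C0 1 with hC1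
  have hC1p : 1 ≤ C1 := le_max_right _ _
  obtain ⟨C5, hC5, hwt⟩ := wt_le A
  obtain ⟨C6, hC6, hwt6⟩ := wt_le_eps A (1 / 100000) (by norm_num)
  have hlog : Tendsto Real.log atTop atTop := Real.tendsto_log_atTop
  have hloglog : Tendsto (fun X : ℝ => Real.log (Real.log X)) atTop atTop := hlog.comp hlog
  filter_upwards [h1, h2 (primorial Z), h3, eventually_ge_atTop (4:ℝ),
    hloglog.eventually_ge_atTop (6 * k + 20 : ℝ),
    hlog.eventually_ge_atTop (10 * C5 * C1),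
    ev_log (2 * C6) N (1 / 50000) (by norm_num)] with X h1 h2 h3' h3 h4 h5 h6
  have hX0 : 0 < X := by linarith
  have hX1 : 1 ≤ X := by linarith
  have hL1 : 1 ≤ Real.log X := by
    rw [Real.le_log_iff_exp_le hX0]
    have := Real.exp_one_lt_d9
    linarith
  set L := Real.log X with hL
  set l := Real.log L with hl
  have hL0 : 0 < L := by linarith
  have hl20 : 20 ≤ l := by
    have : (0:ℝ) ≤ k := by positivity
    linarith
  have hexpl : Real.exp l = L := Real.exp_log hL0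
  have hkr : (0:ℝ) ≤ k := by positivity
  -- exceptional prime
  obtain ⟨fs, hfs, hsc⟩ := h2
  obtain ⟨ps, hps, hps2⟩ := exists_ps Z fs hfs
  have hsc' : ∀ f : ℕ, Squarefree f → 1 < f → (f : ℝ) ≤ Real.exp (l ^ 6) → f.Coprime ps →
      T X f ≤ X * Real.exp (2 * l ^ 6 - l ^ 7) := by
    intro f hf1 hf2 hf3 hf4
    exact hsc f hf1 hf2 hf3 (hps2 f hf2 hf1 hf4)
  -- parameters
  set R := ⌊X ^ (1 / 100 : ℝ)⌋₊ with hR
  set F := ⌊X ^ (1 / 50 : ℝ)⌋₊ with hF
  set D := ⌊L ^ (2 * k)⌋₊ with hD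
  set Ω := ⌈(3 * k : ℕ) * l ^ 4⌉₊ with hΩ
  set κ := 1 / l ^ 3 with hκ
  set P := (Icc 1 (yy X)).filter (fun p => p.Prime ∧ z2 X < p) with hP
  set M := C1 * X / L ^ N' with hM
  have hM0 : 0 < M := by positivity
  have hl3 : (1:ℝ) ≤ l ^ 3 := one_le_pow₀ (by linarith)
  have hκ0 : 0 ≤ κ := by positivity
  have hκ1 : κ ≤ 1 := by
    rw [hκ, div_le_one (by positivity)]
    exact hl3
  have hRle : (R : ℝ) ≤ X ^ (1 / 100 : ℝ) := Nat.floor_le (by positivity)
  have hVR : ((primorial (yy X) * R : ℕ) : ℝ) ≤ X ^ (1 / 50 : ℝ) := by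
    push_cast
    calc (primorial (yy X) : ℝ) * R ≤ X ^ (7 / 5000 : ℝ) * X ^ (1 / 100 : ℝ) :=
          mul_le_mul (primorial_yy_le' X hX1) hRle (by positivity) (by positivity)
      _ = X ^ (7 / 5000 + 1 / 100 : ℝ) := by rw [Real.rpow_add hX0]
      _ ≤ _ := Real.rpow_le_rpow_of_exponent_le hX1 (by norm_num)
  have hFle : primorial (yy X) * R ≤ F := Nat.le_floor hVR
  have hall : ∑ f ∈ Icc 2 F, T X f ≤ M * L ^ k := by
    refine h1.trans ?_
    have hLk : L ^ k = L ^ N' * L ^ B0 := by rw [hk, pow_add]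
    have hLN0 : L ^ N' ≠ 0 := by positivity
    have : M * L ^ k = C1 * X * L ^ B0 := by
      rw [hM, hLk]
      field_simp
    rw [this]
    have : C0 ≤ C1 := le_max_left _ _
    gcongr
  have hyL : (yy X : ℝ) ≤ L := by
    have : (yy X : ℝ) ≤ L / 1000 := Nat.floor_le (by positivity)
    linarith
  -- random set
  have hE1 : ∑ S ∈ P.powerset, ww P κ S * ∑ q ∈ S, (1:ℝ) / q ≤ 2 / l ^ 2 := by
    rw [sum_ww_inv]
    have h7 : ∑ q ∈ P, (1:ℝ) / q ≤ 1 + l := by
      calc ∑ q ∈ P, (1:ℝ) / q ≤ ∑ q ∈ Icc 1 (yy X), (1:ℝ) / q := by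
            apply sum_le_sum_of_subset_of_nonneg (filter_subset _ _)
            intro i _ _
            positivity
        _ ≤ 1 + Real.log (yy X) := harm_le' _
        _ ≤ 1 + l := by
            rcases Nat.eq_zero_or_pos (yy X) with h | h
            · rw [h]; simp; linarith
            · have : Real.log (yy X) ≤ l :=
                Real.log_le_log (by exact_mod_cast h) hyL
              linarith
    calc κ * ∑ q ∈ P, (1:ℝ) / q ≤ κ * (1 + l) := mul_le_mul_of_nonneg_left h7 hκ0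
      _ ≤ κ * (2 * l) := mul_le_mul_of_nonneg_left (by linarith) hκ0
      _ = 2 / l ^ 2 := by
          rw [hκ]
          have : l ≠ 0 := by linarith
          field_simp
  have hE2 : ∑ S ∈ P.powerset, ww P κ S * ∑ p ∈ pairB X ps R D Ω P S, T X (p.1 * p.2) ≤ M := by
    refine (caseB (T X) (hT X) X ps R D Ω F P κ hκ0 hκ1 hFle).trans ?_
    have h7 : (1 - κ) ^ Ω ≤ Real.exp (-((3 * k : ℕ) * l)) := by
      apply pow_le_exp κ l (3 * k) Ω hκ1
      have h8 : ((3 * k : ℕ) : ℝ) * l ^ 4 ≤ Ω := Nat.le_ceil _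
      calc ((3 * k : ℕ) : ℝ) * l = κ * (((3 * k : ℕ) : ℝ) * l ^ 4) := by
            rw [hκ]
            have : l ≠ 0 := by linarith
            field_simp
        _ ≤ κ * Ω := mul_le_mul_of_nonneg_left h8 hκ0
    have h8 : Real.exp (-((3 * k : ℕ) * l)) = 1 / L ^ (3 * k) := by
      rw [Real.exp_neg, Real.exp_nat_mul, hexpl, one_div]
    rw [h8] at h7
    have hDle : (D:ℝ) ≤ L ^ (2 * k) := Nat.floor_le (by positivity)
    have hT0 : 0 ≤ ∑ f ∈ Icc 2 F, T X f := sum_nonneg fun f _ => hT X f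
    calc (1 - κ) ^ Ω * (D * ∑ f ∈ Icc 2 F, T X f) ≤
        (1 / L ^ (3 * k)) * (L ^ (2 * k) * (M * L ^ k)) := by
          apply mul_le_mul h7 _ (by positivity) (by positivity)
          exact mul_le_mul hDle hall hT0 (by positivity)
      _ = M * ((L ^ (2 * k) * L ^ k) / L ^ (3 * k)) := by ring
      _ = M := by
          rw [← pow_add, show 2 * k + k = 3 * k by ring, div_self (by positivity), mul_one]
  obtain ⟨S, hSP, hS1, hS2⟩ := exists_good P κ hκ0 hκ1 (fun S => ∑ q ∈ S, (1:ℝ) / q)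
    (fun S => ∑ p ∈ pairB X ps R D Ω P S, T X (p.1 * p.2))
    (fun S => sum_nonneg fun _ _ => by positivity)
    (fun S => sum_nonneg fun _ _ => hT X _) (2 / l ^ 2) M (by positivity) hM0 hE1 hE2
  refine ⟨ps, S, hps, ⟨?_, ?_⟩, ?_⟩
  · intro q hq
    have := hSP hq
    rw [hP, mem_filter, mem_Icc] at this
    exact ⟨this.2.1, this.2.2, this.1.2⟩
  · calc ∑ q ∈ S, (1:ℝ) / q ≤ 3 * (2 / l ^ 2) := hS1
      _ = 6 / l ^ 2 := by ring
  set W := WW X S ps with hW
  have hW1 : 1 ≤ W := WW_pos X S ps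
  have hWV : W ≤ primorial (yy X) :=
    Nat.le_of_dvd (primorial_pos _) (WW_dvd_primorial X S ps)
  -- case A
  have hsize : ∀ p ∈ pairs X ps R S, p.2 ≤ D → (P ∩ p.1.primeFactors).card < Ω →
      ((p.1 * p.2 : ℕ) : ℝ) ≤ Real.exp (l ^ 6) := by
    intro p hp hpD hpΩ
    unfold pairs at hp
    rw [mem_filter, mem_product, Nat.mem_divisors] at hp
    have h7 := size_caseA X ps Ω S p.1 hp.1.1.1 hpΩ L hL1 hyL
    have h8 : (p.2 : ℝ) ≤ L ^ (2 * k) :=
      le_trans (by exact_mod_cast hpD) (Nat.floor_le (by positivity))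
    have hz : (z2 X : ℝ) ≤ l ^ 3 + 1 := (Nat.ceil_lt_add_one (by positivity)).le
    have hΩle : (Ω : ℝ) ≤ (3 * k : ℕ) * l ^ 4 + 1 := (Nat.ceil_lt_add_one (by positivity)).le
    have h4e : (4:ℝ) ≤ Real.exp 2 := by
      have h := Real.exp_one_gt_d9
      have : Real.exp 2 = Real.exp 1 * Real.exp 1 := by rw [← Real.exp_add]; norm_num
      rw [this]
      nlinarith
    push_cast
    calc (p.1 : ℝ) * p.2 ≤ (4 ^ (z2 X) * L ^ Ω) * L ^ (2 * k) :=
          mul_le_mul h7 h8 (by positivity) (by positivity)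
      _ ≤ ((Real.exp 2) ^ (z2 X) * L ^ Ω) * L ^ (2 * k) := by gcongr
      _ = Real.exp (2 * z2 X + Ω * l + (2 * k : ℕ) * l) := by
          rw [Real.exp_add, Real.exp_add, Real.exp_nat_mul, Real.exp_nat_mul, hexpl,
            ← Real.exp_nat_mul, mul_comm (2:ℝ) (z2 X : ℝ)]
      _ ≤ Real.exp (l ^ 6) := by
          apply Real.exp_le_exp.mpr
          have hp1 := poly1 l ((3 * k : ℕ) : ℝ) ((2 * k : ℕ) : ℝ) (by positivity) (by positivity)
            (by push_cast; linarith)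
          have : (Ω : ℝ) * l ≤ l * ((3 * k : ℕ) * l ^ 4 + 1) := by
            rw [mul_comm]
            exact mul_le_mul_of_nonneg_left hΩle (by linarith)
          linarith
  have hA : ∑ p ∈ (pairs X ps R S).filter (fun p => p.2 ≤ D ∧ (P ∩ p.1.primeFactors).card < Ω),
      T X (p.1 * p.2) ≤ M := by
    refine (sum_pairsA_gen (T X) (hT X) X hX0.le ps R D Ω Z hps P S l hsize hsc').trans ?_
    have hp2 := poly3 l (N':ℝ) (by positivity) (by
      have : (N':ℝ) ≤ k := by rw [hk]; push_cast; linarith [Nat.cast_nonneg (α := ℝ) B0]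
      linarith)
    have h7 : Real.exp (3 * l ^ 6 - l ^ 7) ≤ 1 / L ^ N' := by
      have : 1 / L ^ N' = Real.exp (-(N' * l)) := by
        rw [Real.exp_neg, Real.exp_nat_mul, hexpl, one_div]
      rw [this]
      exact Real.exp_le_exp.mpr (by linarith)
    calc X * Real.exp (3 * l ^ 6 - l ^ 7) ≤ X * (1 / L ^ N') :=
          mul_le_mul_of_nonneg_left h7 hX0.le
      _ = 1 * X / L ^ N' := by ring
      _ ≤ C1 * X / L ^ N' := by gcongr
  have hmain := sum_pairs_gen (T X) (hT X) A X C5 M L hC5 hwt ps R D Ω k F P S hL1 hM0.le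
    (fun b hb => by
      have : L ^ (2 * k) < b := (Nat.floor_lt (by positivity)).mp hb
      exact this.le) hFle hall hA hS2
  -- the large conductors
  set R' := ⌊X ^ (497 / 1000 : ℝ)⌋₊ with hR'
  have hR'le : (R' : ℝ) ≤ X ^ (497 / 1000 : ℝ) := Nat.floor_le (by positivity)
  have hR'X : (R' : ℝ) ≤ X := hR'le.trans (by
    calc X ^ (497 / 1000 : ℝ) ≤ X ^ (1:ℝ) := Real.rpow_le_rpow_of_exponent_le hX1 (by norm_num)
      _ = X := Real.rpow_one X)
  rw [← sum_filter_add_sum_filter_not (pairs X ps R' S) (fun p => p.2 ≤ R)]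
  have hsm : ∑ p ∈ (pairs X ps R' S).filter (fun p => p.2 ≤ R), wt A p.2 * T X (p.1 * p.2) ≤
      5 * C5 * M := by
    refine le_trans ?_ hmain
    apply sum_le_sum_of_subset_of_nonneg
    · intro p hp
      rw [mem_filter] at hp
      unfold pairs at hp ⊢
      rw [mem_filter, mem_product, mem_QQ] at hp ⊢
      exact ⟨⟨hp.1.1.1, ⟨hp.1.1.2.1.1, hp.2⟩, hp.1.1.2.2⟩, hp.1.2⟩
    · intro p _ _
      exact mul_nonneg (wt_nonneg _ _) (hT X _)
  set V := primorial (yy X) with hV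
  have hVX : (V : ℝ) ≤ X ^ (7 / 5000 : ℝ) := primorial_yy_le' X hX1
  have hlg : ∑ p ∈ (pairs X ps R' S).filter (fun p => ¬ p.2 ≤ R), wt A p.2 * T X (p.1 * p.2) ≤
      (C6 * X ^ (1 / 100000 : ℝ) * V) * X ^ (19971 / 20000 : ℝ) := by
    have e1 : ∀ p ∈ (pairs X ps R' S).filter (fun p => ¬ p.2 ≤ R), wt A p.2 * T X (p.1 * p.2) ≤
        (C6 * X ^ (1 / 100000 : ℝ) * V) * ((fun f : ℕ => (1 / (f : ℝ)) * T X f) (p.1 * p.2)) := by
      intro p hp
      rw [mem_filter] at hp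
      unfold pairs at hp
      rw [mem_filter, mem_product, Nat.mem_divisors, mem_QQ] at hp
      obtain ⟨⟨⟨⟨ha, _⟩, ⟨hb1, hb2⟩, hb3, hb4⟩, h5⟩, _⟩ := hp
      have ha0 : 0 < p.1 := Nat.pos_of_dvd_of_pos ha (WW_pos X S ps)
      have ha0r : (0:ℝ) < p.1 := by exact_mod_cast ha0
      have hb0r : (0:ℝ) < p.2 := by exact_mod_cast hb1
      have haV : (p.1 : ℝ) ≤ V := by exact_mod_cast (Nat.le_of_dvd hW1 ha).trans hWV
      have hbX : (p.2 : ℝ) ≤ X := le_trans (by exact_mod_cast hb2) hR'X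
      have e2 : wt A p.2 ≤ (C6 * X ^ (1 / 100000 : ℝ) * V) * (1 / ((p.1 * p.2 : ℕ) : ℝ)) := by
        refine (hwt6 p.2 hb1).trans ?_
        have e3 : (p.2 : ℝ) ^ (1 / 100000 : ℝ) ≤ X ^ (1 / 100000 : ℝ) :=
          Real.rpow_le_rpow hb0r.le hbX (by norm_num)
        push_cast
        calc C6 * (p.2 : ℝ) ^ (1 / 100000 : ℝ) / p.2 ≤ C6 * X ^ (1 / 100000 : ℝ) / p.2 := by gcongr
          _ = C6 * X ^ (1 / 100000 : ℝ) * p.1 * (1 / (p.1 * p.2)) := by field_simp
          _ ≤ C6 * X ^ (1 / 100000 : ℝ) * V * (1 / (p.1 * p.2)) := by gcongr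
      have e4 := mul_le_mul_of_nonneg_right e2 (hT X (p.1 * p.2))
      refine e4.trans (le_of_eq ?_)
      show _ = (C6 * X ^ (1 / 100000 : ℝ) * V) * ((1 / ((p.1 * p.2 : ℕ) : ℝ)) * T X (p.1 * p.2))
      ring
    refine (sum_le_sum e1).trans ?_
    rw [← mul_sum]
    apply mul_le_mul_of_nonneg_left _ (by positivity)
    have e5 := h3' (R + 1) (V * R') (by
        have : (1:ℝ) ≤ X ^ (1 / 100 : ℝ) := Real.one_le_rpow hX1 (by norm_num)
        have : 1 ≤ R := Nat.le_floor (by push_cast; exact this)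
        omega) (by
        have : X ^ (1 / 100 : ℝ) < (R : ℝ) + 1 := Nat.lt_floor_add_one _
        push_cast
        have : (0:ℝ) ≤ R := Nat.cast_nonneg R
        linarith) (by
        push_cast
        calc (V : ℝ) * R' ≤ X ^ (7 / 5000 : ℝ) * X ^ (497 / 1000 : ℝ) :=
              mul_le_mul hVX hR'le (by positivity) (by positivity)
          _ = X ^ (623 / 1250 : ℝ) := by rw [← Real.rpow_add hX0]; norm_num)
    refine le_trans ?_ e5
    apply pair_inj (fun f : ℕ => (1 / (f : ℝ)) * T X f)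
      (fun f => mul_nonneg (by positivity) (hT X f)) W ps R'
    · intro p hp
      rw [mem_filter] at hp
      unfold pairs at hp
      rw [mem_filter] at hp
      exact hp.1.1
    · intro p hp
      rw [mem_filter] at hp
      unfold pairs at hp
      rw [mem_filter, mem_product, Nat.mem_divisors, mem_QQ] at hp
      obtain ⟨⟨⟨⟨ha, _⟩, ⟨hb1, hb2⟩, hb3, hb4⟩, h5⟩, hbR⟩ := hp
      have ha0 : 0 < p.1 := Nat.pos_of_dvd_of_pos ha (WW_pos X S ps)
      rw [mem_Icc]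
      constructor
      · calc R + 1 ≤ p.2 := by omega
          _ = 1 * p.2 := (one_mul _).symm
          _ ≤ p.1 * p.2 := Nat.mul_le_mul_right _ ha0
      · exact Nat.mul_le_mul ((Nat.le_of_dvd hW1 ha).trans hWV) hb2
  have hfin1 : 5 * C5 * M ≤ (1 / 2) * (X / L ^ N) := by
    rw [hM, hN', pow_add]
    have : 5 * C5 * (C1 * X / (L ^ N * L ^ 2)) = (1 / 2) * (X / L ^ N) * ((10 * C5 * C1) / L ^ 2) := by
      field_simp
      ring
    rw [this]
    have h7 : (10 * C5 * C1) / L ^ 2 ≤ 1 := by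
      rw [div_le_one (by positivity)]
      calc 10 * C5 * C1 ≤ L := h5
        _ ≤ L ^ 2 := by nlinarith
    have h8 : 0 ≤ (1 / 2) * (X / L ^ N) := by positivity
    calc (1 / 2) * (X / L ^ N) * ((10 * C5 * C1) / L ^ 2) ≤ (1 / 2) * (X / L ^ N) * 1 :=
          mul_le_mul_of_nonneg_left h7 h8
      _ = _ := mul_one _
  have hfin2 : (C6 * X ^ (1 / 100000 : ℝ) * V) * X ^ (19971 / 20000 : ℝ) ≤ (1 / 2) * (X / L ^ N) := by
    rw [mul_div_assoc', le_div_iff₀ (by positivity)]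
    calc (C6 * X ^ (1 / 100000 : ℝ) * V) * X ^ (19971 / 20000 : ℝ) * L ^ N ≤
        (C6 * X ^ (1 / 100000 : ℝ) * X ^ (7 / 5000 : ℝ)) * X ^ (19971 / 20000 : ℝ) * L ^ N := by gcongr
      _ = (1 / 2) * ((2 * C6 * L ^ N) *
          (X ^ (1 / 100000 : ℝ) * X ^ (7 / 5000 : ℝ) * X ^ (19971 / 20000 : ℝ))) := by ring
      _ ≤ (1 / 2) * (X ^ (1 / 50000 : ℝ) *
          (X ^ (1 / 100000 : ℝ) * X ^ (7 / 5000 : ℝ) * X ^ (19971 / 20000 : ℝ))) := by gcongr
      _ ≤ (1 / 2) * X := by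
          apply mul_le_mul_of_nonneg_left _ (by norm_num)
          rw [← Real.rpow_add hX0, ← Real.rpow_add hX0, ← Real.rpow_add hX0]
          calc X ^ (1 / 50000 + (1 / 100000 + 7 / 5000 + 19971 / 20000) : ℝ) ≤ X ^ (1 : ℝ) :=
                Real.rpow_le_rpow_of_exponent_le hX1 (by norm_num)
            _ = X := Real.rpow_one X
  linarith

end Pool.Agent.J4H73.BV
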