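import Pool.Agent.J4H73.BV.Gen
import Pool.Agent.H378R2.M1

set_option autoImplicit false

/-! The von Mangoldt function. -/

open Finset Filter Topology

namespace Pool.Agent.J4H73.BV

open Pool.Agent.Helper112 Pool.Agent.H398R2.BV
open Pool.Agent.H378R2 Pool.Agent.H378R2.LSBV

theorem TT_h1 : ∃ C0 : ℝ, ∀ᶠ X : ℝ in atTop,
    ∑ f ∈ Icc 2 ⌊X ^ (1 / 50 : ℝ)⌋₊, TT X f ≤ C0 * X * (Real.log X) ^ 8 := by
  obtain ⟨C0, X1, hls⟩ := ls_sum
  refine ⟨C0, ?_⟩
  filter_upwards [eventually_ge_atTop X1] with X hX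
  exact hls X hX

theorem TT_h2 (Z' : ℕ) : ∀ᶠ X : ℝ in atTop, ∃ fs : ℕ, (fs = 0 ∨ Z' < fs) ∧ ∀ f : ℕ, Squarefree f →
      1 < f → (f : ℝ) ≤ Real.exp ((Real.log (Real.log X)) ^ 6) → f ≠ fs →
        TT X f ≤ X * Real.exp ((Real.log (Real.log X)) ^ 6 - (Real.log (Real.log X)) ^ 7) := by
  obtain ⟨X0, hX0⟩ := small_conductor Z'
  filter_upwards [eventually_ge_atTop X0, eventually_gt_atTop 0] with X hX hXpos
  obtain ⟨fs, hfs, h⟩ := hX0 X hX
  refine ⟨fs, hfs, fun f hsq hf1 hfe hne => ?_⟩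
  refine (TT_le X f (by omega) _ (by positivity) (h f hsq hf1 hfe hne)).trans ?_
  calc (f : ℝ) * (X * Real.exp (-(Real.log (Real.log X)) ^ 7)) ≤
      Real.exp ((Real.log (Real.log X)) ^ 6) * (X * Real.exp (-(Real.log (Real.log X)) ^ 7)) :=
        mul_le_mul_of_nonneg_right hfe (by positivity)
    _ = X * (Real.exp ((Real.log (Real.log X)) ^ 6) * Real.exp (-(Real.log (Real.log X)) ^ 7)) := by ring
    _ = _ := by rw [← Real.exp_add, sub_eq_add_neg]

/-- the sum of `τ ^ A ω log` -/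
theorem omega_part (A : ℕ) : ∀ᶠ X : ℝ in atTop, ∀ (ps : ℕ) (S : Finset ℕ),
    ∑ q ∈ QQ (WW X S ps) ps ⌊X ^ (497 / 1000 : ℝ)⌋₊, (q.divisors.card : ℝ) ^ A *
          (2 * ((WW X S ps * q).primeFactors.card * Real.log (3 * X))) ≤
        (1 / 2) * (X / ((Nat.totient (WW X S ps) : ℝ) * (Real.log X) ^ A)) := by
  obtain ⟨C6, hC6, hwt6⟩ := wt_le_eps A (1 / 100) (by norm_num)
  filter_upwards [eventually_ge_atTop (4:ℝ), ev_log (16 * C6) (A + 2) (1 / 100) (by norm_num)] with X h3 h6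
  intro ps S
  have hX0 : 0 < X := by linarith
  have hX1 : 1 ≤ X := by linarith
  have hL1 : 1 ≤ Real.log X := by
    rw [Real.le_log_iff_exp_le hX0]
    have := Real.exp_one_lt_d9
    linarith
  set L := Real.log X with hL
  have hL0 : 0 < L := by linarith
  set W := WW X S ps with hW
  set R := ⌊X ^ (497 / 1000 : ℝ)⌋₊ with hR
  have hRle : (R : ℝ) ≤ X ^ (497 / 1000 : ℝ) := Nat.floor_le (by positivity)
  have hRX : (R:ℝ) ≤ X := by
    refine hRle.trans ?_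
    calc X ^ (497 / 1000 : ℝ) ≤ X ^ (1:ℝ) := Real.rpow_le_rpow_of_exponent_le hX1 (by norm_num)
      _ = X := Real.rpow_one X
  have hW1 : 1 ≤ W := WW_pos X S ps
  have hWV : W ≤ primorial (yy X) :=
    Nat.le_of_dvd (primorial_pos _) (WW_dvd_primorial X S ps)
  have hWX : (W:ℝ) ≤ X ^ (7 / 5000 : ℝ) :=
    le_trans (by exact_mod_cast hWV) (primorial_yy_le' X hX1)
  have hφW : (0:ℝ) < Nat.totient W := by exact_mod_cast Nat.totient_pos.mpr hW1
  have t1 : ∀ q ∈ QQ W ps R, (q.divisors.card : ℝ) ^ A *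
      (2 * ((W * q).primeFactors.card * Real.log (3 * X))) ≤
      8 * C6 * L ^ 2 * X ^ (1 / 100 : ℝ) := by
    intro q hq
    rw [mem_QQ] at hq
    obtain ⟨⟨hq1, hq2⟩, _, _⟩ := hq
    have hq0 : (0:ℝ) < q := by exact_mod_cast hq1
    have hφq : (0:ℝ) < Nat.totient q := by exact_mod_cast Nat.totient_pos.mpr hq1
    have hqX : (q : ℝ) ≤ X := le_trans (by exact_mod_cast hq2) hRX
    have u1 : (q.divisors.card : ℝ) ^ A ≤ C6 * X ^ (1 / 100 : ℝ) := by
      have v1 := hwt6 q hq1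
      unfold wt at v1
      rw [div_le_iff₀ hφq] at v1
      refine v1.trans ?_
      calc C6 * (q:ℝ) ^ (1 / 100 : ℝ) / q * (Nat.totient q : ℝ) ≤ C6 * (q:ℝ) ^ (1 / 100 : ℝ) / q * q := by
            apply mul_le_mul_of_nonneg_left _ (by positivity)
            exact_mod_cast Nat.totient_le q
        _ = C6 * (q:ℝ) ^ (1 / 100 : ℝ) := by field_simp
        _ ≤ C6 * X ^ (1 / 100 : ℝ) := by gcongr
    have u2 : ((W * q).primeFactors.card : ℝ) ≤ 2 * L := by
      refine (omega_le_log (W * q) (Nat.mul_pos hW1 hq1)).trans ?_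
      have v1 : ((W * q : ℕ) : ℝ) ≤ X := by
        push_cast
        calc (W : ℝ) * q ≤ X ^ (7 / 5000 : ℝ) * X ^ (497 / 1000 : ℝ) :=
              mul_le_mul hWX (le_trans (by exact_mod_cast hq2) hRle) hq0.le (by positivity)
          _ = X ^ (7 / 5000 + 497 / 1000 : ℝ) := by rw [Real.rpow_add hX0]
          _ ≤ X ^ (1:ℝ) := Real.rpow_le_rpow_of_exponent_le hX1 (by norm_num)
          _ = X := Real.rpow_one X
      have := log_natCast_le (W * q) X hX1 v1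
      linarith
    have u3 : Real.log (3 * X) ≤ 2 * L := by
      calc Real.log (3 * X) ≤ Real.log (X * X) :=
            Real.log_le_log (by positivity) (by nlinarith)
        _ = 2 * L := by rw [Real.log_mul hX0.ne' hX0.ne']; ring
    have u4 : 0 ≤ Real.log (3 * X) := Real.log_nonneg (by linarith)
    calc (q.divisors.card : ℝ) ^ A *
      (2 * ((W * q).primeFactors.card * Real.log (3 * X))) ≤
        (C6 * X ^ (1 / 100 : ℝ)) * (2 * ((2 * L) * (2 * L))) := by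
          apply mul_le_mul u1 _ (by positivity) (by positivity)
          apply mul_le_mul_of_nonneg_left _ (by norm_num)
          exact mul_le_mul u2 u3 u4 (by positivity)
      _ = _ := by ring
  refine (sum_le_sum t1).trans ?_
  rw [sum_const, nsmul_eq_mul]
  have t2 : ((QQ W ps R).card : ℝ) ≤ X ^ (497 / 1000 : ℝ) := by
    have : (QQ W ps R).card ≤ R := by
      refine (card_filter_le _ _).trans ?_
      rw [Nat.card_Icc]
      omega
    exact le_trans (by exact_mod_cast this) hRle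
  have t3 : (Nat.totient W : ℝ) ≤ X ^ (7 / 5000 : ℝ) :=
    le_trans (by exact_mod_cast Nat.totient_le W) hWX
  rw [← mul_div_assoc, le_div_iff₀ (by positivity)]
  calc ((QQ W ps R).card : ℝ) * (8 * C6 * L ^ 2 * X ^ (1 / 100 : ℝ)) *
      ((Nat.totient W : ℝ) * L ^ A) ≤
      X ^ (497 / 1000 : ℝ) * (8 * C6 * L ^ 2 * X ^ (1 / 100 : ℝ)) *
      (X ^ (7 / 5000 : ℝ) * L ^ A) := by gcongr
    _ = (1 / 2) * ((16 * C6 * L ^ (A + 2)) *
        (X ^ (497 / 1000 : ℝ) * X ^ (1 / 100 : ℝ) * X ^ (7 / 5000 : ℝ))) := by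
        rw [pow_add]; ring
    _ ≤ (1 / 2) * (X ^ (1 / 100 : ℝ) *
        (X ^ (497 / 1000 : ℝ) * X ^ (1 / 100 : ℝ) * X ^ (7 / 5000 : ℝ))) := by gcongr
    _ ≤ (1 / 2) * X := by
        apply mul_le_mul_of_nonneg_left _ (by norm_num)
        rw [← Real.rpow_add hX0, ← Real.rpow_add hX0, ← Real.rpow_add hX0]
        calc _ ≤ X ^ (1 : ℝ) := Real.rpow_le_rpow_of_exponent_le hX1 (by norm_num)
          _ = X := Real.rpow_one X
    _ = 1 / 2 * X := rfl

/-- from pairs to the error terms -/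
theorem sum_wtR (A : ℕ) (X : ℝ) (hX : 4 ≤ X) :
    ∑ e ∈ Icc 1 ⌊X ^ (497 / 1000 : ℝ)⌋₊, wt A e ≤ 2 ^ (2 ^ (A + 1)) * (Real.log X) ^ (2 ^ (A + 1)) := by
  have hX0 : 0 < X := by linarith
  have hX1 : 1 ≤ X := by linarith
  have hL1 : 1 ≤ Real.log X := by
    rw [Real.le_log_iff_exp_le hX0]
    have := Real.exp_one_lt_d9
    linarith
  have hRle : (⌊X ^ (497 / 1000 : ℝ)⌋₊ : ℝ) ≤ X ^ (497 / 1000 : ℝ) := Nat.floor_le (by positivity)
  have hRX : (⌊X ^ (497 / 1000 : ℝ)⌋₊:ℝ) ≤ X := by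
    refine hRle.trans ?_
    calc X ^ (497 / 1000 : ℝ) ≤ X ^ (1:ℝ) := Real.rpow_le_rpow_of_exponent_le hX1 (by norm_num)
      _ = X := Real.rpow_one X
  refine (sum_wt A _).trans ?_
  rw [← mul_pow]
  have h7 := log_natCast_le _ X hX1 hRX
  have h8 := Real.log_natCast_nonneg ⌊X ^ (497 / 1000 : ℝ)⌋₊
  apply pow_le_pow_left₀ (by linarith)
  linarith

theorem EPhi_sum (A : ℕ) : ∀ᶠ X : ℝ in atTop, ∀ (ps : ℕ) (S : Finset ℕ),
    ∑ p ∈ pairs X ps ⌊X ^ (497 / 1000 : ℝ)⌋₊ S, wt A p.2 * TT X (p.1 * p.2) ≤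
      X / (Real.log X) ^ (2 ^ (A + 1) + A + 1) →
    ∀ b : ℕ → ℕ, (∀ q, 1 ≤ q → (b q).Coprime (WW X S ps * q)) →
    ∑ q ∈ QQ (WW X S ps) ps ⌊X ^ (497 / 1000 : ℝ)⌋₊, (q.divisors.card : ℝ) ^ A *
      |EPhi X (WW X S ps * q) (b q)| ≤ X / ((Nat.totient (WW X S ps) : ℝ) * (Real.log X) ^ A) := by
  filter_upwards [omega_part A, eventually_ge_atTop (4:ℝ),
    Real.tendsto_log_atTop.eventually_ge_atTop (2 * 2 ^ (2 ^ (A + 1)) : ℝ)] with X hom hX hLK
  intro ps S hpairs b hb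
  have hX0 : 0 < X := by linarith
  have hX1 : 1 ≤ X := by linarith
  have hL1 : 1 ≤ Real.log X := by
    rw [Real.le_log_iff_exp_le hX0]
    have := Real.exp_one_lt_d9
    linarith
  set L := Real.log X with hL
  have hL0 : 0 < L := by linarith
  set W := WW X S ps with hW
  set R := ⌊X ^ (497 / 1000 : ℝ)⌋₊ with hR
  have hW1 : 1 ≤ W := WW_pos X S ps
  have hφW : (0:ℝ) < Nat.totient W := by exact_mod_cast Nat.totient_pos.mpr hW1
  have hsumwt := sum_wtR A X hX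
  rw [← hR, ← hL] at hsumwt
  have hsumwt0 : 0 ≤ ∑ e ∈ Icc 1 R, wt A e := sum_nonneg fun e _ => wt_nonneg A e
  have hpairs0 : 0 ≤ ∑ p ∈ pairs X ps R S, wt A p.2 * TT X (p.1 * p.2) :=
    sum_nonneg fun p _ => mul_nonneg (wt_nonneg A _) (TT_nonneg X _)
  have s0 : ∑ q ∈ QQ W ps R, (q.divisors.card : ℝ) ^ A * |EPhi X (W * q) (b q)| ≤
      ∑ q ∈ QQ W ps R, (q.divisors.card : ℝ) ^ A * ((1 / (Nat.totient (W * q) : ℝ)) *
        ∑ f ∈ (W * q).divisors.filter (fun f => f ≠ 1), TT X f) +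
      ∑ q ∈ QQ W ps R, (q.divisors.card : ℝ) ^ A *
        (2 * ((W * q).primeFactors.card * Real.log (3 * X))) := by
    rw [← sum_add_distrib]
    apply sum_le_sum
    intro q hq
    rw [mem_QQ] at hq
    rw [← mul_add]
    apply mul_le_mul_of_nonneg_left _ (by positivity)
    exact EPhi_le X hX1 (W * q) (b q) (Nat.mul_pos hW1 hq.1.1) (hb q hq.1.1)
  have s1 := main_swap A (TT X) (TT_nonneg X) W ps R hW1
  have s2 : (1 / (Nat.totient W : ℝ)) * ((∑ e ∈ Icc 1 R, wt A e) *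
    ∑ p ∈ (W.divisors ×ˢ QQ W ps R).filter (fun p => p.1 * p.2 ≠ 1),
      wt A p.2 * TT X (p.1 * p.2)) ≤ (1 / 2) * (X / ((Nat.totient W : ℝ) * L ^ A)) := by
    set K := 2 ^ (A + 1) with hK
    calc _ ≤ (1 / (Nat.totient W : ℝ)) * ((2 ^ K * L ^ K) * (X / L ^ (K + A + 1))) := by
          apply mul_le_mul_of_nonneg_left _ (by positivity)
          exact mul_le_mul hsumwt hpairs hpairs0 (by positivity)
      _ = (1 / 2) * ((2 * 2 ^ K) / L) * (X / ((Nat.totient W : ℝ) * L ^ A)) := by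
          rw [pow_add, pow_add, pow_one]
          field_simp
      _ ≤ (1 / 2) * 1 * (X / ((Nat.totient W : ℝ) * L ^ A)) := by
          gcongr
          rw [div_le_one (by positivity)]
          exact hLK
      _ = _ := by ring
  have s3 := hom ps S
  linarith

end Pool.Agent.J4H73.BV
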