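import Pool.Agent.J4H73.BV.TypeI

set_option autoImplicit false

/-! Large conductors: a power is saved. -/

open Finset Filter Topology

namespace Pool.Agent.J4H73.BV

open Pool.Agent.Helper112 Pool.Agent.Helper112.TI Pool.Agent.Helper112.TII
open Pool.Agent.H398R2.BV Pool.Agent.H410R2
open Pool.Agent.H378R2 Pool.Agent.H378R2.LSBV

theorem ls_large (X : ℝ) (hX : 4 ≤ X) (F0 F1 : ℕ) (h2 : 2 ≤ F0) (h0 : X ^ (1 / 100 : ℝ) ≤ 4 * F0)
    (h1 : (F1 : ℝ) ≤ X ^ (623 / 1250 : ℝ)) :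
    ∑ f ∈ Icc F0 F1, (1 / (f : ℝ)) * ∑ ψ ∈ Prim f, ‖psiLog X f ψ‖ ≤
      1000 * X ^ (624 / 625 : ℝ) * (1 + Real.log X) ^ 5 := by
  have hX0 : 0 < X := by linarith
  have hX1 : 1 ≤ X := by linarith
  set L := Real.log X with hL
  have hL0 : 0 ≤ L := Real.log_nonneg hX1
  rcases Nat.eq_zero_or_pos F1 with hF | hF
  · subst hF
    rw [Icc_eq_empty (by omega), sum_empty]
    positivity
  have hp : 1 ≤ X ^ (1 / 10 : ℝ) := Real.one_le_rpow hX1 (by norm_num)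
  obtain ⟨U, hU1, hU2⟩ : ∃ U : ℕ, X ^ (1 / 10 : ℝ) ≤ U ∧ (U:ℝ) ≤ 2 * X ^ (1 / 10 : ℝ) := by
    refine ⟨⌈X ^ (1 / 10 : ℝ)⌉₊, Nat.le_ceil _, ?_⟩
    have := (Nat.ceil_lt_add_one (show 0 ≤ X ^ (1 / 10 : ℝ) by positivity)).le
    linarith
  have hU : 1 ≤ U := by
    have : (1:ℝ) ≤ U := hp.trans hU1
    exact_mod_cast this
  have hU0 : (0:ℝ) < U := by exact_mod_cast hU
  have hF1r : (1 : ℝ) ≤ F1 := by exact_mod_cast hF
  have hF1X : (F1 : ℝ) ≤ X := h1.trans (by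
    calc X ^ (623 / 1250 : ℝ) ≤ X ^ (1 : ℝ) := Real.rpow_le_rpow_of_exponent_le hX1 (by norm_num)
      _ = X := Real.rpow_one X)
  -- splitting
  have hsplit : ∑ f ∈ Icc F0 F1, (1 / (f : ℝ)) * ∑ ψ ∈ Prim f, ‖psiLog X f ψ‖ ≤
      ∑ f ∈ Icc F0 F1, 32 * (U:ℝ) * U * Real.sqrt F1 * (1 + L) ^ 3 +
      ∑ f ∈ Icc F0 F1, (1 / (Nat.totient f : ℝ)) * ∑ ψ ∈ Prim f, ‖TL X f ψ (LamII U U)‖ := by
    rw [← sum_add_distrib]
    apply sum_le_sum
    intro f hf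
    rw [mem_Icc] at hf
    have hf2 : 2 ≤ f := h2.trans hf.1
    have hf0 : (0:ℝ) < f := by
      have : 0 < f := by omega
      exact_mod_cast this
    have hfF : (f:ℝ) ≤ F1 := by exact_mod_cast hf.2
    have hφ : (0:ℝ) < Nat.totient f := by exact_mod_cast Nat.totient_pos.mpr (by omega)
    have hφf : (Nat.totient f : ℝ) ≤ f := by exact_mod_cast Nat.totient_le f
    have hlf : Real.log f ≤ L := Real.log_le_log hf0 (hfF.trans hF1X)
    have hlf0 : 0 ≤ Real.log f := Real.log_natCast_nonneg f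
    have e1 : ∑ ψ ∈ Prim f, ‖psiLog X f ψ‖ ≤ ∑ ψ ∈ Prim f, 32 * (U:ℝ) * U * Real.sqrt F1 * (1 + L) ^ 3 +
        ∑ ψ ∈ Prim f, ‖TL X f ψ (LamII U U)‖ := by
      rw [← sum_add_distrib]
      apply sum_le_sum
      intro ψ hψ
      refine (norm_psiLog_leB X hX1 U U f hU hU hf2 ψ (prim_ne_one hf2 hψ)).trans ?_
      have e2 : 8 * (U:ℝ) * U * (4 * Real.sqrt f * (1 + Real.log f)) * Real.log X ^ 2 ≤
          8 * (U:ℝ) * U * (4 * Real.sqrt F1 * (1 + L)) * (1 + L) ^ 2 := by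
        have e3 : Real.sqrt f ≤ Real.sqrt F1 := Real.sqrt_le_sqrt hfF
        have e4 : Real.log X ≤ 1 + L := by rw [← hL]; linarith
        rw [← hL]
        gcongr
      have e5 : 8 * (U:ℝ) * U * (4 * Real.sqrt F1 * (1 + L)) * (1 + L) ^ 2 =
          32 * (U:ℝ) * U * Real.sqrt F1 * (1 + L) ^ 3 := by ring
      linarith
    have e3 : (1 / (f:ℝ)) * ∑ ψ ∈ Prim f, 32 * (U:ℝ) * U * Real.sqrt F1 * (1 + L) ^ 3 ≤
        32 * (U:ℝ) * U * Real.sqrt F1 * (1 + L) ^ 3 := by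
      rw [sum_const, nsmul_eq_mul]
      have hc : ((Prim f).card : ℝ) ≤ f := (card_prim_le (by omega)).trans hφf
      set K := 32 * (U:ℝ) * U * Real.sqrt F1 * (1 + L) ^ 3 with hK
      have hK0 : 0 ≤ K := by positivity
      calc (1 / (f:ℝ)) * ((Prim f).card * K) ≤ (1 / (f:ℝ)) * (f * K) := by gcongr
        _ = K := by field_simp
    have e4 : (1 / (f:ℝ)) * ∑ ψ ∈ Prim f, ‖TL X f ψ (LamII U U)‖ ≤
        (1 / (Nat.totient f : ℝ)) * ∑ ψ ∈ Prim f, ‖TL X f ψ (LamII U U)‖ := by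
      apply mul_le_mul_of_nonneg_right _ (sum_nonneg fun _ _ => norm_nonneg _)
      exact one_div_le_one_div_of_le hφ hφf
    calc (1 / (f : ℝ)) * ∑ ψ ∈ Prim f, ‖psiLog X f ψ‖ ≤
        (1 / (f : ℝ)) * (∑ ψ ∈ Prim f, 32 * (U:ℝ) * U * Real.sqrt F1 * (1 + L) ^ 3 +
        ∑ ψ ∈ Prim f, ‖TL X f ψ (LamII U U)‖) := mul_le_mul_of_nonneg_left e1 (by positivity)
      _ ≤ _ := by rw [mul_add]; exact add_le_add e3 e4
  have hI : ∑ f ∈ Icc F0 F1, 32 * (U:ℝ) * U * Real.sqrt F1 * (1 + L) ^ 3 ≤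
      128 * X ^ (624 / 625 : ℝ) * (1 + L) ^ 5 := by
    rw [sum_const, nsmul_eq_mul]
    have hc : ((Icc F0 F1).card : ℝ) ≤ F1 := by
      rw [Nat.card_Icc]
      have : F1 + 1 - F0 ≤ F1 := by omega
      exact_mod_cast this
    have e1 : (F1 : ℝ) * Real.sqrt F1 ≤ X ^ (623 / 1250 * (3 / 2) : ℝ) := by
      calc (F1 : ℝ) * Real.sqrt F1 ≤ X ^ (623 / 1250 : ℝ) * Real.sqrt (X ^ (623 / 1250 : ℝ)) := by
            gcongr
        _ = _ := by
            rw [Real.sqrt_eq_rpow, ← Real.rpow_mul hX0.le, ← Real.rpow_add hX0]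
            norm_num
    have e2 : (U : ℝ) * U ≤ 4 * X ^ (1 / 5 : ℝ) := by
      calc (U : ℝ) * U ≤ (2 * X ^ (1 / 10 : ℝ)) * (2 * X ^ (1 / 10 : ℝ)) := by gcongr
        _ = 4 * (X ^ (1 / 10 : ℝ) * X ^ (1 / 10 : ℝ)) := by ring
        _ = 4 * X ^ (1 / 5 : ℝ) := by rw [← Real.rpow_add hX0]; norm_num
    calc ((Icc F0 F1).card : ℝ) * (32 * (U:ℝ) * U * Real.sqrt F1 * (1 + L) ^ 3) ≤
        F1 * (32 * (U:ℝ) * U * Real.sqrt F1 * (1 + L) ^ 3) := by gcongr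
      _ = 32 * ((U : ℝ) * U) * (F1 * Real.sqrt F1) * (1 + L) ^ 3 := by ring
      _ ≤ 32 * (4 * X ^ (1 / 5 : ℝ)) * X ^ (623 / 1250 * (3 / 2) : ℝ) * (1 + L) ^ 3 := by gcongr
      _ = 128 * (X ^ (1 / 5 : ℝ) * X ^ (623 / 1250 * (3 / 2) : ℝ)) * (1 + L) ^ 3 := by ring
      _ ≤ 128 * X ^ (624 / 625 : ℝ) * (1 + L) ^ 5 := by
          rw [← Real.rpow_add hX0]
          have e3 : X ^ (1 / 5 + 623 / 1250 * (3 / 2) : ℝ) ≤ X ^ (624 / 625 : ℝ) :=
            Real.rpow_le_rpow_of_exponent_le hX1 (by norm_num)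
          have e4 : (1 + L) ^ 3 ≤ (1 + L) ^ 5 := pow_le_pow_right₀ (by linarith) (by norm_num)
          gcongr
  have hF0r : (0:ℝ) < F0 := by
    have : 0 < F0 := by omega
    exact_mod_cast this
  have hII := typeII_block X hX1 U U F0 F1 hU hU (by omega) hF
  rw [← hL] at hII
  have hlF : Real.log F1 ≤ L := Real.log_le_log (by linarith) hF1X
  have hlF0 : 0 ≤ Real.log F1 := Real.log_natCast_nonneg F1
  have hsX : Real.sqrt X = X ^ (1 / 2 : ℝ) := Real.sqrt_eq_rpow X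
  have g1 : Real.sqrt X / F0 * Real.sqrt X ≤ 4 * X ^ (624 / 625 : ℝ) := by
    have e1 : Real.sqrt X / F0 * Real.sqrt X = X / F0 := by
      rw [div_mul_eq_mul_div, Real.mul_self_sqrt hX0.le]
    rw [e1, div_le_iff₀ hF0r]
    have e2 : X = X ^ (99 / 100 : ℝ) * X ^ (1 / 100 : ℝ) := by
      rw [← Real.rpow_add hX0]; norm_num
    calc X = X ^ (99 / 100 : ℝ) * X ^ (1 / 100 : ℝ) := e2
      _ ≤ X ^ (624 / 625 : ℝ) * (4 * F0) := by
          apply mul_le_mul _ h0 (by positivity) (by positivity)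
          exact Real.rpow_le_rpow_of_exponent_le hX1 (by norm_num)
      _ = _ := by ring
  have g2 : Real.sqrt (X / U) * Real.sqrt X ≤ X ^ (624 / 625 : ℝ) := by
    have e1 : Real.sqrt (X / U) ≤ X ^ (9 / 20 : ℝ) := by
      rw [Real.sqrt_le_left (by positivity)]
      calc X / U ≤ X / X ^ (1 / 10 : ℝ) := div_le_div_of_nonneg_left hX0.le (by positivity) hU1
        _ = X ^ (1 - 1 / 10 : ℝ) := by rw [Real.rpow_sub hX0, Real.rpow_one]
        _ = (X ^ (9 / 20 : ℝ)) ^ 2 := by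
            rw [← Real.rpow_natCast, ← Real.rpow_mul hX0.le]; norm_num
    calc Real.sqrt (X / U) * Real.sqrt X ≤ X ^ (9 / 20 : ℝ) * X ^ (1 / 2 : ℝ) := by
          rw [hsX]; gcongr
      _ = X ^ (9 / 20 + 1 / 2 : ℝ) := by rw [Real.rpow_add hX0]
      _ ≤ _ := Real.rpow_le_rpow_of_exponent_le hX1 (by norm_num)
  have g3 : (F1 : ℝ) * Real.sqrt X ≤ X ^ (624 / 625 : ℝ) := by
    calc (F1 : ℝ) * Real.sqrt X ≤ X ^ (623 / 1250 : ℝ) * X ^ (1 / 2 : ℝ) := by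
          rw [hsX]; gcongr
      _ = X ^ (624 / 625 : ℝ) := by rw [← Real.rpow_add hX0]; norm_num
  have hII2 : ∑ f ∈ Icc F0 F1, (1 / (Nat.totient f : ℝ)) * ∑ ψ ∈ Prim f, ‖TL X f ψ (LamII U U)‖ ≤
      84 * X ^ (624 / 625 : ℝ) * (1 + L) ^ 5 := by
    refine hII.trans ?_
    calc 12 * (1 + Real.log F1) * (Real.sqrt X / F0 + (Real.sqrt (X / U) + Real.sqrt (X / U)) + F1) *
        (Real.sqrt X * (1 + L) ^ 3) * L =
        12 * ((1 + Real.log F1) * (1 + L) ^ 3 * L) * (Real.sqrt X / F0 * Real.sqrt X +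
          2 * (Real.sqrt (X / U) * Real.sqrt X) + F1 * Real.sqrt X) := by ring
      _ ≤ 12 * ((1 + L) * (1 + L) ^ 3 * (1 + L)) * (4 * X ^ (624 / 625 : ℝ) +
          2 * X ^ (624 / 625 : ℝ) + X ^ (624 / 625 : ℝ)) := by
          gcongr
          linarith
      _ = _ := by ring
  have hpos : 0 ≤ X ^ (624 / 625 : ℝ) * (1 + L) ^ 5 := by positivity
  linarith [hsplit, hI, hII2]

theorem TT_le_three (X : ℝ) (hX : 0 < X) (f : ℕ) : TT X f ≤ ∑ ψ ∈ Prim f, ‖psiLog X f ψ‖ +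
    2 * ∑ ψ ∈ Prim f, ‖psiLog (Real.exp (1 / 2) * X) f ψ‖ +
    ∑ ψ ∈ Prim f, ‖psiLog (Real.exp 1 * X) f ψ‖ := by
  unfold TT
  rw [mul_sum, ← sum_add_distrib, ← sum_add_distrib]
  exact sum_le_sum fun ψ _ => norm_psiPhi_le X hX f ψ

/-- large conductors save a power -/
theorem TT_large : ∀ᶠ X : ℝ in atTop, ∀ F0 F1 : ℕ, 2 ≤ F0 → X ^ (1 / 100 : ℝ) ≤ 2 * F0 →
    (F1 : ℝ) ≤ X ^ (623 / 1250 : ℝ) →
    ∑ f ∈ Icc F0 F1, (1 / (f : ℝ)) * TT X f ≤ X ^ (1997 / 2000 : ℝ) := by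
  filter_upwards [eventually_ge_atTop (4:ℝ), ev_log (4 * (1000 * 3) * 3 ^ 5) 5 (1 / 10000) (by norm_num),
    Real.tendsto_log_atTop.eventually_ge_atTop (2 : ℝ)] with X hX hlog hL2
  intro F0 F1 h2 h0 h1
  have hX0 : 0 < X := by linarith
  have hX1 : 1 ≤ X := by linarith
  set L := Real.log X with hL
  have h3 : Real.exp 1 ≤ 3 := by
    have := Real.exp_one_lt_d9
    linarith
  have h12 : Real.exp (1 / 2) ≤ Real.exp 1 := Real.exp_le_exp.mpr (by norm_num)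
  have hgen : ∀ c : ℝ, 1 ≤ c → c ≤ 3 → ∑ f ∈ Icc F0 F1, (1 / (f : ℝ)) * ∑ ψ ∈ Prim f, ‖psiLog (c * X) f ψ‖ ≤
      1000 * (3 * X ^ (624 / 625 : ℝ)) * (3 * L) ^ 5 := by
    intro c hc1 hc3
    have hcX : 4 ≤ c * X := by nlinarith
    have e0 : (c * X) ^ (1 / 100 : ℝ) ≤ 4 * F0 := by
      calc (c * X) ^ (1 / 100 : ℝ) = c ^ (1 / 100 : ℝ) * X ^ (1 / 100 : ℝ) :=
            Real.mul_rpow (by linarith) hX0.le
        _ ≤ 2 * (2 * F0) := by
            apply mul_le_mul _ h0 (by positivity) (by norm_num)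
            calc c ^ (1 / 100 : ℝ) ≤ 3 ^ (1 / 100 : ℝ) := by gcongr
              _ ≤ (2 ^ 2) ^ (1 / 100 : ℝ) := by gcongr; norm_num
              _ = 2 ^ (1 / 50 : ℝ) := by
                  rw [← Real.rpow_natCast, ← Real.rpow_mul (by norm_num)]; norm_num
              _ ≤ 2 ^ (1 : ℝ) := Real.rpow_le_rpow_of_exponent_le (by norm_num) (by norm_num)
              _ = 2 := Real.rpow_one 2
        _ = 4 * F0 := by ring
    have e1 : (F1 : ℝ) ≤ (c * X) ^ (623 / 1250 : ℝ) :=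
      h1.trans (Real.rpow_le_rpow hX0.le (by nlinarith) (by norm_num))
    refine (ls_large (c * X) hcX F0 F1 h2 e0 e1).trans ?_
    have e2 : (c * X) ^ (624 / 625 : ℝ) ≤ 3 * X ^ (624 / 625 : ℝ) := by
      rw [Real.mul_rpow (by linarith) hX0.le]
      apply mul_le_mul_of_nonneg_right _ (by positivity)
      calc c ^ (624 / 625 : ℝ) ≤ 3 ^ (624 / 625 : ℝ) := by gcongr
        _ ≤ 3 ^ (1 : ℝ) := Real.rpow_le_rpow_of_exponent_le (by norm_num) (by norm_num)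
        _ = 3 := Real.rpow_one 3
    have e3 : Real.log (c * X) ≤ 1.1 + L := by
      rw [Real.log_mul (by linarith) hX0.ne']
      have : Real.log c ≤ Real.log 3 := Real.log_le_log (by linarith) hc3
      have h4 : Real.log 3 ≤ 1.1 := by
        rw [Real.log_le_iff_le_exp (by norm_num)]
        have h5 : (2.7182818283 : ℝ) < Real.exp 1 := Real.exp_one_gt_d9
        have h6 : (1.1 : ℝ) ≤ Real.exp 0.1 := by
          have := Real.add_one_le_exp (0.1 : ℝ)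
          linarith
        have h7 : Real.exp 1.1 = Real.exp 1 * Real.exp 0.1 := by
          rw [← Real.exp_add]; norm_num
        rw [h7]
        have h8 : (1.105 : ℝ) ≤ Real.exp 0.1 := by
          have := Real.quadratic_le_exp_of_nonneg (show (0:ℝ) ≤ 0.1 by norm_num)
          norm_num at this ⊢
          linarith
        nlinarith
      linarith
    have e4 : 0 ≤ Real.log (c * X) := Real.log_nonneg (by linarith)
    gcongr
    linarith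
  have a1 := hgen 1 le_rfl (by norm_num)
  rw [one_mul] at a1
  have a2 := hgen (Real.exp (1 / 2)) (Real.one_le_exp (by norm_num)) (by linarith)
  have a3 := hgen (Real.exp 1) (Real.one_le_exp (by norm_num)) h3
  have hsum : ∑ f ∈ Icc F0 F1, (1 / (f : ℝ)) * TT X f ≤
      ∑ f ∈ Icc F0 F1, (1 / (f : ℝ)) * ∑ ψ ∈ Prim f, ‖psiLog X f ψ‖ +
      2 * ∑ f ∈ Icc F0 F1, (1 / (f : ℝ)) * ∑ ψ ∈ Prim f, ‖psiLog (Real.exp (1 / 2) * X) f ψ‖ +
      ∑ f ∈ Icc F0 F1, (1 / (f : ℝ)) * ∑ ψ ∈ Prim f, ‖psiLog (Real.exp 1 * X) f ψ‖ := by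
    rw [mul_sum, ← sum_add_distrib, ← sum_add_distrib]
    apply sum_le_sum
    intro f _
    have h5 := mul_le_mul_of_nonneg_left (TT_le_three X hX0 f) (show 0 ≤ 1 / (f : ℝ) by positivity)
    refine h5.trans (le_of_eq ?_)
    ring
  refine hsum.trans ?_
  have hfin : 4 * (1000 * (3 * X ^ (624 / 625 : ℝ)) * (3 * L) ^ 5) ≤ X ^ (1997 / 2000 : ℝ) := by
    calc 4 * (1000 * (3 * X ^ (624 / 625 : ℝ)) * (3 * L) ^ 5) =
        (4 * (1000 * 3) * 3 ^ 5 * L ^ 5) * X ^ (624 / 625 : ℝ) := by ring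
      _ ≤ X ^ (1 / 10000 : ℝ) * X ^ (624 / 625 : ℝ) := by
          apply mul_le_mul_of_nonneg_right hlog (by positivity)
      _ = X ^ (1 / 10000 + 624 / 625 : ℝ) := by rw [Real.rpow_add hX0]
      _ = X ^ (1997 / 2000 : ℝ) := by norm_num
  linarith

end Pool.Agent.J4H73.BV
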